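import Pool.Agent.WAR.StmtsI

set_option autoImplicit false

namespace Pool.Agent.WAR.HN2

variable [Par]

/-- the real numbers are a field of our list. -/
theorem isLC_real : IsLC ℝ := Or.inr ⟨RingEquiv.refl ℝ, fun _ => rfl⟩

theorem fin (ind : IndStmt) (apo : ApoStmt) (rpb : RpbStmt) (rxd : RxdStmt) (crt : CrtStmt)
    (ruc : RucStmt) (rud : RudStmt) (rub : RubStmt) (bck : BckStmt) (fn : FunStmt)
    (app : AppStmt) : FinStmt := by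
  classical
  intro ι F _ ϖ K _ _ σ σR hfam S hwa V VR hV hVR hVR2
  have lc : ∀ v, IsLC (F v) := fun v => Or.inl ⟨ϖ v, hfam.1 v⟩
  have hgd : ∀ v, Gd (F v) := fun v => (hfam.1 v).gd
  obtain ⟨L0, hok0, hL0⟩ := ind ι F ϖ hfam S V hV
  -- the real place
  obtain ⟨z, z', hz', hrz⟩ := (rud ℝ isLC_real L0 hok0 VR hVR hVR2).2
  obtain ⟨W, hW, hzW, hWr⟩ := ruc ℝ isLC_real L0 z z' hrz VR hVR hz'
  have hodd : ∀ v ∈ S, Odd (ϖ v) := by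
    intro v _
    rw [← Int.not_even_iff_odd, even_iff_two_dvd]
    intro h
    have h1 : ϖ v ∣ 2 := by
      rcases Int.associated_iff.1 ((Int.prime_two.dvd_prime_iff_associated (hfam.1 v).prime).1 h)
        with h2 | h2
      · exact ⟨1, by omega⟩
      · exact ⟨-1, by omega⟩
    exact (hfam.1 v).odd h1
  have hoddp : ∀ N : ι → ℕ, Odd (∏ v ∈ S, ϖ v ^ N v) := by
    intro N
    exact Finset.prod_induction _ Odd (fun _ _ h1 h2 => h1.mul h2) odd_one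
      (fun v hv => (hodd v hv).pow)
  have hb : Odd (∏ v ∈ S, ϖ v) := by
    have := hoddp (fun _ => 1)
    simpa using this
  obtain ⟨L1, hL1, hrx⟩ := rxd W hW ⟨z, hzW, ((app ℝ L0 [] z z').2 hrz).1⟩ (∏ v ∈ S, ϖ v) hb
  -- finite places
  have h1 : ∀ v, ∃ (O : Set (F v × F v × F v)) (k0 : ℤ) (N : ℕ) (T : Set (F v)), v ∈ S →
      (∀ z1 ∈ O, OnU z1 → ∃ z2 ∈ V v, Run (L1 ++ L0) z1 z2) ∧ IsOpen T ∧ T.Nonempty ∧
        ∀ (k : ℤ) (τ : F v), ϖ v ^ N ∣ k - k0 → τ ∈ T → ck k τ ∈ O ∧ OnU (ck k τ) := by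
    intro v
    by_cases hv : v ∈ S
    · obtain ⟨u, w, hu, hw, hr⟩ := hL0 v hv
      have hu' : ∃ u' : F v × F v × F v, RegO u' ∧ Run L1 u' u := by
        rcases hL1 with h | h
        · exact ⟨u, hu, by rw [h]; exact ⟨hu.1, rfl⟩⟩
        · obtain ⟨u', hu', hst⟩ := rpb (F v) (ϖ v) (hfam.1 v) u (∏ v ∈ S, ϖ v) hu
            (Finset.dvd_prod_of_mem ϖ hv)
          exact ⟨u', hu', by rw [h]; exact ⟨u, hst, hst.2.1, rfl⟩⟩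
      obtain ⟨u', hu', hr1⟩ := hu'
      have hr2 : Run (L1 ++ L0) u' w := (app (F v) L1 L0 u' w).1.2 ⟨u, hr1, hr⟩
      obtain ⟨O, hO, huO, h3⟩ := ruc (F v) (lc v) (L1 ++ L0) u' w hr2 (V v) (hV v hv).1 hw
      obtain ⟨k0, N, T, hT, hT2, h4⟩ := apo (F v) (ϖ v) (hfam.1 v) u' hu' O hO huO
      exact ⟨O, k0, N, T, fun _ => ⟨h3, hT, hT2, h4⟩⟩
    · exact ⟨∅, 0, 0, ∅, fun h => absurd h hv⟩
  choose O kv N T hO using h1
  obtain ⟨k0, hk0⟩ := crt ι ϖ S N kv (fun v _ => ⟨(hfam.1 v).prime, (hfam.1 v).pos⟩)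
    (fun v _ w _ hne => hfam.2 v w hne)
  obtain ⟨k, TR, hk, hTR, hTR2, hTRk⟩ := hrx k0 (∏ v ∈ S, ϖ v ^ N v) (hoddp N)
  -- the point
  obtain ⟨τ, hτ, hτR⟩ := hwa T TR (fun v hv => ⟨(hO v hv).2.1, (hO v hv).2.2.1⟩) hTR hTR2
  have hbR : bc σR (ck k τ) = ck k (σR τ) := bck K ℝ σR two_ne_zero k τ
  obtain ⟨w1, hw1, hrw1⟩ := hTRk (σR τ) hτR
  obtain ⟨wR, hwR, hrR⟩ := hWr w1 hw1 ((app ℝ L1 [] _ w1).2 hrw1).2.1
  have hrR2 : Run (L1 ++ L0) (ck k (σR τ)) wR := (app ℝ L1 L0 _ wR).1.2 ⟨w1, hrw1, hrR⟩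
  rw [← hbR] at hrR2
  obtain ⟨z1, hz1, hz1R⟩ := rub K ℝ σR two_ne_zero (L1 ++ L0) (ck k τ) wR hrR2
  refine ⟨z1, ((app K (L1 ++ L0) [] _ z1).2 hz1).2.1, fun v hv => ?_, by rw [hz1R]; exact hwR⟩
  have hb : bc (σ v) (ck k τ) = ck k (σ v τ) := bck K (F v) (σ v) (hfam.1 v).two_ne k τ
  obtain ⟨h3, _, _, h4⟩ := hO v hv
  have hdv : ϖ v ^ N v ∣ k - kv v := by
    have h5 : ϖ v ^ N v ∣ k - k0 := (Finset.dvd_prod_of_mem (fun v => ϖ v ^ N v) hv).trans hk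
    have h6 := dvd_add h5 (hk0 v hv)
    have e : k - k0 + (k0 - kv v) = k - kv v := by ring
    rwa [e] at h6
  obtain ⟨h7, h8⟩ := h4 k (σ v τ) hdv (hτ v hv)
  obtain ⟨w, hw, hr⟩ := h3 _ h7 h8
  rw [← hb] at hr
  obtain ⟨z2, hz2, hz2v⟩ := rub K (F v) (σ v) (hfam.1 v).two_ne (L1 ++ L0) (ck k τ) w hr
  rw [fn K (L1 ++ L0) (ck k τ) z1 z2 hz1 hz2, hz2v]
  exact hw

end Pool.Agent.WAR.HN2
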