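import Pool.Agent.Helper2_WAR.OMU
import Pool.Agent.Helper2_WAR.FIN
import Pool.Agent.Helper40_WAR.RTS
import Pool.Agent.Helper40_WAR.RCS
import Pool.Agent.Helper40_WAR.OMA
import Pool.Agent.Helper40_WAR.OMS
import Pool.Agent.Helper26_WAR.UNI
import Pool.Agent.Helper26_WAR.MED
import Pool.Agent.Helper26_WAR.CYU
import Pool.Agent.Helper39_WAR.RCG
import Pool.Agent.Helper23_WAR.UFR
import Pool.Agent.Helper47_WAR.UOP
import Pool.Agent.Helper19_WAR.TWT
import Pool.Agent.Helper10_WAR.MCY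
import Pool.Agent.Helper95_WAR.BLO
import Pool.Agent.Helper95_WAR.BFI
import Pool.Agent.Helper32_WAR.H2_APP
import Pool.Agent.Helper32_WAR.H2_FUN
import Pool.Agent.Helper32_WAR.H2_RUI
import Pool.Agent.Helper32_WAR.H2_RUC
import Pool.Agent.Helper32_WAR.H2_RUD
import Pool.Agent.Helper32_WAR.H2_RUB
import Pool.Agent.Helper32_WAR.H2_EGN
import Pool.Agent.Helper32_WAR.H2_SAP
import Pool.Agent.Helper32_WAR.H2_APX
import Pool.Agent.Helper32_WAR.H2_RR
import Pool.Agent.Helper32_WAR.H2_CRT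
import Pool.Agent.Helper32_WAR.H40_GExp
import Pool.Agent.Helper32_WAR.H70_GDF
import Pool.Agent.Helper32_WAR.H21_ADN
import Pool.Agent.Helper32_WAR.H27_SMN
import Pool.Agent.Helper32_WAR.H32_TRX
import Pool.Agent.Helper32_WAR.H30_DIF
import Pool.Agent.Helper32_WAR.H10_LOC
import Pool.Agent.Helper32_WAR.H42_KUC
import Pool.Agent.Helper32_WAR.H32_ZAD
import Pool.Agent.Helper32_WAR.H16_ZSM
import Pool.Agent.Helper32_WAR.H60_INJ
import Pool.Agent.Helper32_WAR.H6_INF
import Pool.Agent.Helper32_WAR.H32_CNA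
import Pool.Agent.Helper32_WAR.H3_CNS
import Pool.Agent.Helper32_WAR.H77_DNA
import Pool.Agent.Helper32_WAR.H89_DNS
import Pool.Agent.Helper32_WAR.H30_CONT
import Pool.Agent.Helper32_WAR.H12_DEN
import Pool.Agent.Helper32_WAR.H67_RGO
import Pool.Agent.Helper32_WAR.H69_NEX
import Pool.Agent.Helper32_WAR.H15_NEO
import Pool.Agent.Helper32_WAR.H26_CCN
import Pool.Agent.Helper32_WAR.H26_ZEQ
import Pool.Agent.Helper32_WAR.H26_ZAL
import Pool.Agent.Helper32_WAR.H77_ZSL
import Pool.Agent.Helper32_WAR.H27_ZLV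
import Pool.Agent.Helper32_WAR.H27_DGN
import Pool.Agent.Helper32_WAR.H69_CRI
import Pool.Agent.Helper32_WAR.H40_CNT
import Pool.Agent.Helper32_WAR.H49_RAM
import Pool.Agent.Helper32_WAR.H42_T2G
import Pool.Agent.Helper32_WAR.H98_RED
import Pool.Agent.Helper32_WAR.H70_PT2
import Pool.Agent.Helper32_WAR.H65_KIL
import Pool.Agent.Helper32_WAR.H34_ITS
import Pool.Agent.Helper32_WAR.H39_NRM
import Pool.Agent.Helper32_WAR.H77_LVB
import Pool.Agent.Helper32_WAR.H62_MZZ
import Pool.Agent.Helper32_WAR.H80_LIN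
import Pool.Agent.Helper32_WAR.H14_CKF
import Pool.Agent.Helper32_WAR.H54_NGL
import Pool.Agent.Helper32_WAR.H12_TWD
import Pool.Agent.Helper32_WAR.H49_MCN
import Pool.Agent.Helper32_WAR.H67_MEE
import Pool.Agent.Helper32_WAR.H60_SWE
import Pool.Agent.Helper32_WAR.H10_TNG
import Pool.Agent.Helper32_WAR.H28_RPB
import Pool.Agent.Helper32_WAR.H39_NQT
import Pool.Agent.Helper32_WAR.H42_APG
import Pool.Agent.Helper32_WAR.H75_APO
import Pool.Agent.Helper32_WAR.H95_RHV
import Pool.Agent.Helper32_WAR.H88_RCO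
import Pool.Agent.Helper32_WAR.H49_RSM
import Pool.Agent.Helper32_WAR.H62_RTF
import Pool.Agent.Helper32_WAR.H10_RNT
import Pool.Agent.Helper32_WAR.H95_RGR
import Pool.Agent.Helper32_WAR.H77_RGE
import Pool.Agent.Helper32_WAR.H41_RCK
import Pool.Agent.Helper32_WAR.H95_RFI
import Pool.Agent.Helper32_WAR.H95_BWA
import Pool.Agent.Helper32_WAR.H90_JNE
import Pool.Agent.Helper32_WAR.H90_JCO
import Pool.Agent.Helper32_WAR.H90_JDen
import Pool.Agent.Helper32_WAR.H90_Proj

/-!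
# Assembly of the squad WAR (MP_ff4683_nt, all odd primes of good reduction)

All rows of the tables `waq` (copied to `Helper32_WAR`) and `war` are applied to each other.
-/

namespace Pool.Agent.WAR.HN2

section main
variable [Par]

/-- local square roots for the fields of the squad -/
theorem locSq {F : Type} [NormedField F] (h : IsLC F) : H90.LocSq F := by
  rcases h with ⟨ϖ, h⟩ | h
  · exact H90.locSq_of_isLoc h
  · exact H90.locSq_of_isRe h

theorem cnj : CnjStmt := by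
  intro F _ h l z z' hl hs V hV hz
  subst hl
  haveI := (locSq h).gd
  exact H90.con_jj z z' hs V hV hz

theorem dnj : DnjStmt := by
  intro F _ h l hl V hV hz
  subst hl
  exact H90.den_jj (locSq h) V hV hz

/-! ## Topology of the points -/

theorem A_gdf : GdfStmt := H70.gdf
theorem A_adn : AdnStmt := H21.adn
theorem A_smn : SmnStmt := H27.smn A_adn
theorem A_trx : TrxStmt := H32.trx
theorem A_dif : DifStmt := H30.dif
theorem A_loc : LocStmt := H10.loc A_dif
theorem A_kuc : KucStmt := H42.kuc A_trx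
theorem A_zad : ZadStmt := H32.zad
theorem A_zsm : ZsmStmt := H16.zsm A_zad A_smn
theorem A_inj : InjStmt := H60.inj A_zsm A_adn
theorem A_inf : InfStmt := H6.inf
theorem A_fra : FraStmt := H40.fra
theorem A_fre : FreStmt := H40.fre
theorem A_inv : InvStmt := H40.inv
theorem A_cmp : CmpStmt := H40.cmp
theorem A_bch : BchStmt := H40.bch
theorem A_bck : BckStmt := H40.bck
theorem A_cna : CnaStmt := H32.cna A_gdf A_fra A_fre A_kuc A_loc A_adn A_smn
theorem A_cns : CnsStmt := H3.cns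
theorem A_con : ConStmt := H30.con A_cna A_cns cnj
theorem A_dna : DnaStmt := H77D.dna A_gdf A_fra A_fre A_kuc A_inj A_inf
theorem A_dns : DnsStmt := H89.dns
theorem A_den : DenStmt := H12.den A_dna A_dns dnj
theorem A_rgo : RgoStmt := H67.rgo
theorem A_nex : NexStmt := H69.nex A_gdf
theorem A_neo : NeoStmt := H15.neo

/-! ## The local theory at a prime -/

theorem A_ccn : CcnStmt := H26.ccn
theorem A_zeq : ZeqStmt := H26.zeq A_ccn
theorem A_zal : ZalStmt := H26.zal A_ccn A_zeq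
theorem A_zsl : ZslStmt := H77.zsl A_zeq A_zal
theorem A_zlv : ZlvStmt := H27.zlv A_zeq A_zal A_zsl
theorem A_dgn : DgnStmt := H27.dgn A_zal A_zsl A_zlv
theorem A_cri : CriStmt := H69.cri
theorem A_cnt : CntStmt := H40.cnt A_zlv A_cri
theorem A_ram : RamStmt := H49.ram
theorem A_t2g : T2gStmt := H42.t2g A_cri
theorem A_red : RedStmt := H98.red A_cri
theorem A_mcy : McyStmt := H10.mcy A_red A_t2g A_ram
theorem A_pt2 : Pt2Stmt := H70.pt2 A_zlv A_cnt A_ram
theorem A_kil : KilStmt := H65.kil A_zlv A_cnt A_ram A_pt2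
theorem A_its : ItsStmt := H34.its
theorem A_uni : UniStmt := H26.uni A_zlv A_dgn A_cnt A_ram A_pt2 A_its
theorem A_nrm : NrmStmt := H39.nrm
theorem A_lvb : LvbStmt := H77.lvb A_zeq
theorem A_mzz : MzzStmt := H62.mzz A_ccn A_zeq
theorem A_lin : LinStmt := H80.lin A_zeq A_zal A_zsl
theorem A_ckf : CkfStmt := H14.ckf A_fra
theorem A_ngl : NglStmt := H54.ngl A_dif A_gdf
theorem A_twd : TwdStmt := H12.twd
theorem A_mcn : McnStmt := H49.mcn A_fra A_kuc A_gdf A_nrm A_lvb A_zlv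
theorem A_mee : MeeStmt := H67.mee A_fra A_mzz A_lin A_nrm
theorem A_swe : SweStmt := H60.swe A_mee
theorem A_tng : TngStmt := H10.tng
theorem A_rpb : RpbStmt := H28.rpb A_fra A_nrm A_mzz A_lin A_zlv
theorem A_nqt : NqtStmt := H39.nqt A_gdf A_fra A_kuc A_nrm A_kil A_lvb
theorem A_ufr : UfrStmt := H23.ufr
theorem A_uop : UopStmt := H47.uop A_gdf A_loc A_ufr A_zlv
theorem A_twt : TwtStmt := H19.twt
theorem A_cyu : CyuStmt := H26.cyu A_nrm A_mcy A_zlv A_its
theorem A_rcg : RcgStmt :=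
  H39.rcg A_uni A_ngl A_twd A_zlv A_lvb A_nrm A_fra A_kuc A_gdf A_inf A_ufr
theorem A_med : MedStmt := H26.med A_fra A_nrm A_mzz A_lin A_zlv
theorem A_apg : ApgStmt := H42.apg A_gdf A_ckf A_kuc A_loc A_lvb A_zlv
theorem A_apo : ApoStmt := H75.apo A_apg A_dgn A_zlv A_mzz A_nrm
theorem A_jne : JneStmt := H90.jne
theorem A_jco : JcoStmt := H90.jco

/-! ## The real place -/

theorem A_goodR : GoodF ℝ := A_gdf ℝ isLC_real
theorem A_rhv : R.RhvStmt := H95.rhv
theorem A_rco : R.RcoStmt := H88.rco A_rhv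
theorem A_rsm : R.RsmStmt := H49.rsm A_adn A_dif A_goodR
theorem A_rtf : R.RtfStmt := H62.rtf A_rsm A_zsm A_goodR
theorem A_rnt : R.RntStmt := H10.rnt A_rtf
theorem A_rgr : R.RgrStmt := H95.rgr A_adn A_zad A_goodR
theorem A_rge : R.RgeStmt := H77R.rge A_rgr A_rhv A_rsm A_smn A_goodR
theorem A_rck : R.RckStmt := H41.rck A_rco A_rge A_rnt
theorem A_rfi : R.RfiStmt := H95.rfi A_rck A_kuc A_con A_goodR
theorem A_rxd : RxdStmt := H95.rxd A_rfi A_rco A_con A_den A_inv

/-! ## Words -/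

theorem A_app : AppStmt := H2.app
theorem A_fun : FunStmt := H2.fun'
theorem A_rui : RuiStmt := H2.rui A_inv A_app
theorem A_ruc : RucStmt := H2.ruc A_con
theorem A_rud : RudStmt := H2.rud A_inv A_con A_den A_app A_rui
theorem A_rub : RubStmt := H2.rub A_bch
theorem A_sap : SapStmt := H2.sap A_nqt A_cmp H2.egn
theorem A_rtr : RtrStmt := H2.rtr A_ruc A_app
theorem A_rcj : RcjStmt := H2.rcj A_ruc A_rud A_rui A_app
theorem A_rbs : RbsStmt := H2.rbs A_sap A_mcn
theorem A_rjg : RjgStmt := H2.rjg H2.apx A_mee A_jco A_jne A_rbs A_rcj A_inv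
theorem A_rtg : RtgStmt := HN2.rtg A_rjg A_tng A_swe A_rbs A_rcj A_rtr A_rui A_dns
theorem A_rts : RtsStmt := H40.rts A_ruc A_app
theorem A_rcs : RcsStmt := H40.rcs A_ruc A_rud A_rui A_app
theorem A_omu : OmuStmt := omu A_rcg A_rjg A_rtg A_med A_rbs A_rcj A_rtr A_app
theorem A_oma : OmaStmt := H40.oma A_con A_med A_rbs A_rcs A_rts
theorem A_oms : OmsStmt := H40.oms A_con A_med A_rbs A_rcs A_rts A_fre A_fra
theorem A_omj : OmjStmt := H40.omj A_con A_jco A_inv A_rcs
theorem A_omt : OmtStmt :=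
  H40.omt A_con A_med A_rtg A_rbs A_rcj A_rtr A_rcs A_rts A_fre A_fra
theorem A_mst : MstStmt := mst A_omu A_oma A_oms A_omj A_omt A_rui A_app A_nex
theorem A_opo : OpoStmt := opo A_uop A_ruc A_app
theorem A_ind : IndStmt := ind A_mst A_opo A_ruc A_rud A_app A_rgo
theorem A_fin : FinStmt :=
  fin A_ind A_apo A_rpb A_rxd H2.crt A_ruc A_rud A_rub A_bck A_fun A_app

/-! ## The open surface over `Q` -/

theorem A_blo : BloStmt := H95.blo
theorem A_bwa : BwaStmt := H95.bwa H2.crt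
theorem A_bfi : BfiStmt := H95.bfi A_blo A_bwa A_fin

end main

end Pool.Agent.WAR.HN2
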