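import Pool.Agent.WAR.StmtsI
import Pool.Agent.Helper32_WAR.H2_RR

set_option autoImplicit false

/-!
# WAR: the rows RTG (with the weaker hypothesis), OMU, OPO, MST, IND
-/

namespace Pool.Agent.WAR.HN2

open Pool.Agent.WAR.H2

variable [Par]

/-- the letters `sw, t0, tp, tm` are defined everywhere. -/
def DnsQ : Prop :=
  ∀ (F : Type) [NormedField F] [Gd F], (2 : F) ≠ 0 →
  ∀ l : Letter, (l = .sw ∨ l = .t0 ∨ l = .tp ∨ l = .tm) → ∀ z : F × F × F, OnU z →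
    ∃ z', Step l z z'

theorem onU_swf {F : Type} [Field F] (z : F × F × F) (h : OnU z) : OnU (swf z) :=
  ⟨by rw [show (swf z).2.2 = z.2.2 from rfl, h.1]; exact mul_comm _ _, h.2⟩

theorem rtg (rjg : RjgStmt) (tng : TngStmt) (swe : SweStmt) (rbs : RbsStmt) (rcj : RcjStmt)
    (rtr : RtrStmt) (rui : RuiStmt) (dns : DnsQ) : RtgStmt := by
  intro ι F _ ϖ S q hfam hqS hle t ρ ht hρ
  have hL := hfam.1 q
  haveI := hL.gd
  obtain ⟨a, b, c, e, r0, hdet, hr0, hswe⟩ := swe (F q) (ϖ q) hL ρ hρ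
  have hmin : 0 < min r0 1 := lt_min hr0 one_pos
  have hne : ∀ l : Letter, (l = .t0 ∨ l = .tp ∨ l = .tm) →
      ∃ r' : ℝ, 0 < r' ∧ ∀ z : F q × F q × F q,
      NearE 0 r' z → ∃ y w, NearE 0 ρ y ∧ Run ([l] ++ [.sw]) y w ∧ RR F S q z w := by
    intro l hl
    obtain ⟨x1, r1, hr1, hgood, htng⟩ := tng (F q) (ϖ q) hL l hl (min r0 1) hmin
    obtain ⟨r', hr', hrjg⟩ := rjg ι F ϖ S q hfam hqS hle x1 r1 hr1 hgood
    refine ⟨r', hr', fun z hz => ?_⟩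
    obtain ⟨w1, hw1, hRR1⟩ := hrjg z hz
    obtain ⟨y1, hrun1, hy1⟩ := htng w1 hw1
    have hinv : Run [.sw, l, .sw] y1 w1 := by
      have h := rui (F q) hL.two_ne _ _ _ hrun1
      have e1 : invW [Letter.sw, l, Letter.sw] = [Letter.sw, l, Letter.sw] := by
        rcases hl with rfl | rfl | rfl <;> simp [invW, Letter.inv]
      rwa [e1] at h
    obtain ⟨y2, hst2, hy2⟩ := hswe y1 (nearE_le hmin (min_le_left _ _) hy1)
    obtain ⟨n1, n2⟩ := nearE_one hmin (min_le_right _ _) hy1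
    have hRR2 := rbs ι F ϖ S q hfam hqS hle a b c e y1 y2 n1 n2 hst2
    have hUy : OnU (swf y2) := hy2.1
    obtain ⟨y3, hst3⟩ := dns (F q) hL.two_ne l (Or.inr hl) (swf y2) hUy
    have hUy3 := onU_swf y3 hst3.2.1
    have hrunA : Run [.sw, l, .sw] y2 (swf y3) :=
      ⟨swf y2, ⟨hst2.2.1, hUy, rfl⟩, y3, hst3, swf y3, ⟨hst3.2.1, hUy3, rfl⟩, hUy3, rfl⟩
    refine ⟨swf y2, swf y3, hy2, ⟨y3, hst3, swf y3, ⟨hst3.2.1, hUy3, rfl⟩, hUy3, rfl⟩, ?_⟩
    exact rtr ι F ϖ S q hfam.1 z w1 (swf y3) hRR1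
      (rcj ι F ϖ S q hfam.1 [.sw, l, .sw] y1 y2 w1 (swf y3) hRR2 hinv hrunA)
  rcases ht with rfl | rfl | rfl | rfl
  · refine ⟨min r0 1, hmin, fun z hz => ?_⟩
    obtain ⟨w, hst, hw⟩ := hswe z (nearE_le hmin (min_le_left _ _) hz)
    obtain ⟨n1, n2⟩ := nearE_one hmin (min_le_right _ _) hz
    refine ⟨swf w, w, hw, ?_, rbs ι F ϖ S q hfam hqS hle a b c e z w n1 n2 hst⟩
    exact ⟨w, ⟨hw.1, hst.2.1, (swf_swf w).symm⟩, hst.2.1, rfl⟩
  · exact hne _ (Or.inl rfl)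
  · exact hne _ (Or.inr (Or.inl rfl))
  · exact hne _ (Or.inr (Or.inr rfl))

/-- from `RR` to `Rch` -/
theorem rch_of_RR {ι : Type} {F : ι → Type} [∀ v, NormedField (F v)] {S : Finset ι} {q : ι}
    {z w : F q × F q × F q} (h : RR F S q z w) {B : Set (F q × F q × F q)} (hB : IsOpen B)
    (hw : w ∈ B) : Rch F S q z B := fun u O hO => h.2.2 B hB hw u O hO

theorem omu (rcg : RcgStmt) (rjg : RjgStmt) (rtg : RtgStmt) (med : MedStmt) (rbs : RbsStmt)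
    (rcj : RcjStmt) (rtr : RtrStmt) (app : AppStmt) : OmuStmt := by
  intro ι F _ ϖ S q hfam hqS hle w hwU hwP
  refine ⟨hwU, fun B hB hwB => ?_⟩
  have hL := hfam.1 q
  haveI := hL.gd
  obtain ⟨t, a, b, c, e, x1, r, ht, hdet, hr, hgood, hrcg⟩ :=
    rcg (F q) (ϖ q) hL B hB ⟨w, hwB, hwU, hwP⟩
  obtain ⟨r1, hr1, hrjg⟩ := rjg ι F ϖ S q hfam hqS hle x1 r hr hgood
  obtain ⟨r2, hr2, hrtg⟩ := rtg ι F ϖ S q hfam hqS hle t r1 ht hr1
  obtain ⟨r3, hr3, hmed⟩ := med (F q) (ϖ q) hL a b c e hdet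
  have hmin0 : 0 < min r2 r3 := lt_min hr2 hr3
  have hmin : 0 < min (min r2 r3) 1 := lt_min hmin0 one_pos
  refine ⟨min (min r2 r3) 1, hmin, fun z hz => ?_⟩
  obtain ⟨z', hst⟩ := hmed z (nearE_le hmin ((min_le_left _ _).trans (min_le_right _ _)) hz)
  obtain ⟨n1, n2⟩ := nearE_one hmin (min_le_right _ _) hz
  obtain ⟨y, w0, hy, hrun, hRRzw⟩ :=
    hrtg z (nearE_le hmin ((min_le_left _ _).trans (min_le_left _ _)) hz)
  obtain ⟨y1, hy1, hRRy⟩ := hrjg y hy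
  obtain ⟨v, hv, hrunv⟩ := hrcg y1 hy1
  have e1 : t ++ [Letter.sw, Letter.act a b c e] = (t ++ [Letter.sw]) ++ [Letter.act a b c e] := by
    simp
  rw [e1] at hrunv
  obtain ⟨w1, hw1, hwv⟩ := (app (F q) (t ++ [.sw]) [.act a b c e] y1 v).1.1 hrunv
  have hRR1 := rcj ι F ϖ S q hfam.1 (t ++ [.sw]) y y1 w0 w1 hRRy hrun hw1
  have hRR2 := rtr ι F ϖ S q hfam.1 z w0 w1 hRRzw hRR1
  have hRR3 := rbs ι F ϖ S q hfam hqS hle a b c e z z' n1 n2 hst
  have hRR4 := rcj ι F ϖ S q hfam.1 [.act a b c e] z w1 z' v hRR2 (run_one hst) hwv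
  exact rch_of_RR (rtr ι F ϖ S q hfam.1 z z' v hRR3 hRR4) hB hv

theorem opo (uop : UopStmt) (ruc : RucStmt) (app : AppStmt) : OpoStmt := by
  intro F _ ϖ hL z hz
  obtain ⟨L, z', hr, hu⟩ := hz
  have hU' := ((app F L [] z z').2 hr).2.1
  obtain ⟨O', hO', hzO', h1⟩ := uop F ϖ hL z' hU' hu
  obtain ⟨O, hO, hzO, h2⟩ := ruc F (Or.inl ⟨ϖ, hL⟩) L z z' hr O' hO' hzO'
  refine ⟨O, hO, hzO, fun z1 hz1 hU1 => ?_⟩
  obtain ⟨z2, hz2, hr2⟩ := h2 z1 hz1 hU1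
  exact ⟨L, z2, hr2, h1 z2 hz2 ((app F L [] z1 z2).2 hr2).2.1⟩

theorem mst (omu : OmuStmt) (oma : OmaStmt) (oms : OmsStmt) (omj : OmjStmt) (omt : OmtStmt)
    (rui : RuiStmt) (app : AppStmt) (nex : NexStmt) : MstStmt := by
  intro ι F _ ϖ S q hfam hqS hle Vq hVq hVqne
  have hL := hfam.1 q
  haveI := hL.gd
  obtain ⟨z, hzV, L, z', hr, hu⟩ := hVqne
  have hU' := ((app (F q) L [] z z').2 hr).2.1
  have hOm' : Om F S q z' := omu ι F ϖ S q hfam hqS hle z' hU' hu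
  have hstep : ∀ (l : Letter) (w w1 : F q × F q × F q), Step l w w1 → Om F S q w →
      Om F S q w1 := by
    intro l w w1 hst hw
    cases l with
    | act a b c e => exact oma ι F ϖ S q hfam hqS hle a b c e w w1 hw hst
    | sw => exact oms ι F ϖ S q hfam hqS hle w w1 hw hst
    | t0 => exact omt ι F ϖ S q hfam hqS hle .t0 w w1 (Or.inl rfl) hw hst
    | tp => exact omt ι F ϖ S q hfam hqS hle .tp w w1 (Or.inr (Or.inl rfl)) hw hst
    | tm => exact omt ι F ϖ S q hfam hqS hle .tm w w1 (Or.inr (Or.inr rfl)) hw hst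
    | jj => exact omj ι F ϖ S q hfam hqS hle w w1 hw hst
  have hrun : ∀ (M : List Letter) (w w1 : F q × F q × F q), Run M w w1 → Om F S q w →
      Om F S q w1 := by
    intro M
    induction M with
    | nil =>
      intro w w1 h hw
      obtain ⟨_, h2⟩ := h
      rw [h2]
      exact hw
    | cons l M ih =>
      intro w w1 h hw
      obtain ⟨w2, hst, h2⟩ := h
      exact ih w2 w1 h2 (hstep l w w2 hst hw)
  have hOm : Om F S q z := hrun (invW L) z' z (rui (F q) hL.two_ne L z z' hr) hOm'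
  obtain ⟨r, hr0, hreach⟩ := hOm.2 Vq hVq hzV
  have hmin : 0 < min r 1 := lt_min hr0 one_pos
  obtain ⟨y, hy⟩ := nex (F q) (ϖ q) hL (min r 1) hmin
  obtain ⟨n1, n2⟩ := nearE_one hmin (min_le_right _ _) hy
  refine ⟨y, ⟨hy.1, n1, n2, ?_⟩, hreach y (nearE_le hmin (min_le_left _ _) hy)⟩
  have h4 := hy.2.2.2
  rw [sub_zero] at h4
  exact h4.le.trans (min_le_right _ _)

theorem ind (mst : MstStmt) (opo : OpoStmt) (ruc : RucStmt) (rud : RudStmt) (app : AppStmt)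
    (rgo : RgoStmt) : IndStmt := by
  classical
  intro ι F _ ϖ hfam S
  have lc : ∀ v, IsLC (F v) := fun v => Or.inl ⟨ϖ v, hfam.1 v⟩
  induction S using Finset.strongInduction with
  | H S ih =>
    intro V hV
    rcases S.eq_empty_or_nonempty with hS | hS
    · refine ⟨[], by simp, fun v hv => ?_⟩
      rw [hS] at hv
      simp at hv
    · obtain ⟨q, hqS, hqmax⟩ := Finset.exists_max_image S (fun v => ϖ v) hS
      have hsub : S.erase q ⊂ S := Finset.erase_ssubset hqS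
      obtain ⟨L0, hok0, hL0⟩ := ih (S.erase q) hsub V
        (fun v hv => hV v (Finset.mem_of_mem_erase hv))
      -- the place q
      obtain ⟨z0, hz0, hz0P⟩ := (hV q hqS).2
      obtain ⟨OP, hOP, hz0O, hOPP⟩ := opo (F q) (ϖ q) (hfam.1 q) z0 hz0P
      have hz0U : OnU z0 := by
        obtain ⟨L, z', hr, _⟩ := hz0P
        exact ((app (F q) L [] z0 z').2 hr).1
      obtain ⟨z, z', hz', hrz⟩ := (rud (F q) (lc q) L0 hok0 (V q ∩ OP)
        ((hV q hqS).1.inter hOP) ⟨z0, ⟨hz0, hz0O⟩, hz0U⟩).2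
      have hz'U := ((app (F q) L0 [] z z').2 hrz).2.1
      have hzP : OmP z := by
        obtain ⟨L, z'', hr2, hu⟩ := hOPP z' hz'.2 hz'U
        exact ⟨L0 ++ L, z'', (app (F q) L0 L z z'').1.2 ⟨z', hrz, hr2⟩, hu⟩
      obtain ⟨W, hW, hzW, hWr⟩ := ruc (F q) (lc q) L0 z z' hrz (V q) (hV q hqS).1 hz'.1
      -- the other places
      have h1 : ∀ v, ∃ (u : F v × F v × F v) (O : Set (F v × F v × F v)), v ∈ S.erase q →
          OnU u ∧ IsOpen O ∧ u ∈ O ∧ (∀ z1 ∈ O, OnU z1 → RegO z1) ∧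
            ∀ z1 ∈ O, OnU z1 → ∃ z2 ∈ V v, Run L0 z1 z2 := by
        intro v
        by_cases hv : v ∈ S.erase q
        · obtain ⟨u, w, hu, hw, hr⟩ := hL0 v hv
          have hVv := hV v (Finset.mem_of_mem_erase hv)
          obtain ⟨O1, hO1, huO1, h3⟩ := ruc (F v) (lc v) L0 u w hr (V v) hVv.1 hw
          obtain ⟨O2, hO2, huO2, h4⟩ := rgo (F v) (ϖ v) (hfam.1 v) u hu
          exact ⟨u, O1 ∩ O2, fun _ => ⟨((app (F v) L0 [] u w).2 hr).1, hO1.inter hO2,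
            ⟨huO1, huO2⟩, fun z1 hz1 => h4 z1 hz1.2, fun z1 hz1 => h3 z1 hz1.1⟩⟩
        · exact ⟨(0, 0, 0), ∅, fun h => absurd h hv⟩
      choose u O hO using h1
      obtain ⟨zq, hzq, hRch⟩ := mst ι F ϖ (S.erase q) q hfam
        (Finset.notMem_erase q S) (fun v hv => hqmax v (Finset.mem_of_mem_erase hv)) W hW
        ⟨z, hzW, hzP⟩
      obtain ⟨L1, hok1, hS1, wq', hwq', hrq⟩ := hRch u O
        (fun v hv => ⟨(hO v hv).1, (hO v hv).2.1, (hO v hv).2.2.1⟩)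
      refine ⟨L1 ++ L0, fun l hl => ?_, fun v hv => ?_⟩
      · rcases List.mem_append.1 hl with h | h
        · exact hok1 l h
        · exact hok0 l h
      · by_cases hvq : v = q
        · subst hvq
          obtain ⟨w2, hw2, hr2⟩ := hWr wq' hwq' ((app (F v) L1 [] zq wq').2 hrq).2.1
          exact ⟨zq, w2, hzq, hw2, (app (F v) L1 L0 zq w2).1.2 ⟨wq', hrq, hr2⟩⟩
        · have hv' : v ∈ S.erase q := Finset.mem_erase.2 ⟨hvq, hv⟩
          obtain ⟨u', hu', w, hw, hr⟩ := hS1 v hv'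
          obtain ⟨h5, h6, _⟩ := (app (F v) L1 [] u' w).2 hr
          obtain ⟨_, _, _, h7, h8⟩ := hO v hv'
          obtain ⟨w2, hw2, hr2⟩ := h8 w hw h6
          exact ⟨u', w2, h7 u' hu' h5, hw2, (app (F v) L1 L0 u' w2).1.2 ⟨w, hr, hr2⟩⟩

end Pool.Agent.WAR.HN2
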